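import Pool.Agent.P8H73.GM.Stm

/-! Package COR of project GM. -/

set_option autoImplicit false

namespace Pool.Agent.P8H53.GM

open Finset Filter Topology Pool.Agent.H376R2.MR Pool.Agent.H376R2.TT Pool.Agent.P8H73.GM

theorem cor_one (h : S_FIN) : ∃ c : ℝ, 0 < c ∧
  (∀ η : ℝ, 0 < η → η ≤ 1 → ∃ H₁ : ℝ, 3 ≤ H₁ ∧ ∀ (k : ℕ) (l : ℤ) (x y : ℝ), 1 ≤ k → y ≤ x → H₁ ≤ y / k →
    η * Real.log (y / k) ≤ Mk k (y / k) →
    (N x y k l : ℝ) < (2 - c * η) * y / (Nat.totient k * Real.log (y / k))) := by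
  obtain ⟨c₁, C, H₀, hc1, hC, hH0, hfin⟩ := h
  set m : ℝ := min (c₁ / 2) 1 with hm
  have hm0 : 0 < m := lt_min (by positivity) one_pos
  refine ⟨m / 2, by positivity, fun η hη hη1 => ?_⟩
  have e2 : ∀ᶠ L : ℝ in atTop, 2 * Real.log L + C ≤ c₁ * η / 2 * L := by
    have h1 := Real.isLittleO_log_id_atTop.bound (show (0 : ℝ) < c₁ * η / 8 by positivity)
    filter_upwards [h1, eventually_ge_atTop (4 * C / (c₁ * η)), eventually_ge_atTop (0 : ℝ)]
      with L h2 h3 h4
    rw [id, Real.norm_eq_abs, Real.norm_eq_abs, abs_of_nonneg h4] at h2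
    rw [div_le_iff₀ (by positivity)] at h3
    have := le_abs_self (Real.log L)
    nlinarith
  obtain ⟨H₂, h2⟩ := eventually_atTop.1 (Real.tendsto_log_atTop.eventually e2)
  refine ⟨max H₀ H₂, hH0.trans (le_max_left _ _), ?_⟩
  intro k l x y hk hyx hH hM
  have hk0 : (0 : ℝ) < k := by exact_mod_cast hk
  obtain ⟨f1, f2⟩ := hfin k l x y hk hyx ((le_max_left _ _).trans hH)
  have f3 := h2 _ ((le_max_right _ _).trans hH)
  set H : ℝ := y / k with hHdef
  have hH3 : 3 ≤ H := hH0.trans ((le_max_left _ _).trans hH)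
  set L : ℝ := Real.log H with hL
  have hLpos : 0 < L := Real.log_pos (by linarith)
  have hy : 0 < y := by
    have : y = H * k := by rw [hHdef, div_mul_cancel₀ _ hk0.ne']
    rw [this]
    have : 0 < H := by linarith
    positivity
  have hφ : (0 : ℝ) < Nat.totient k := by exact_mod_cast Nat.totient_pos.2 hk
  set t : ℝ := c₁ * η / 2 with ht
  have ht0 : 0 < t := by positivity
  have hB : L * (1 + t) ≤ L + c₁ * Mk k H - 2 * Real.log L - C := by
    have h3 : c₁ * (η * L) ≤ c₁ * Mk k H := mul_le_mul_of_nonneg_left hM hc1.le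
    nlinarith
  have h4 : (N x y k l : ℝ) ≤ 2 * y / (Nat.totient k * (L * (1 + t))) :=
    f2.trans (div_le_div_of_nonneg_left (by positivity) (by positivity)
      (mul_le_mul_of_nonneg_left hB hφ.le))
  have h5 : 2 / (1 + t) < 2 - m / 2 * η := by
    rw [div_lt_iff₀ (by linarith)]
    have h6 : m * η ≤ t := by
      calc m * η ≤ c₁ / 2 * η := mul_le_mul_of_nonneg_right (min_le_left _ _) hη.le
        _ = t := by rw [ht]; ring
    have h7 : m * η ≤ 1 := by
      calc m * η ≤ 1 * 1 := mul_le_mul (min_le_right _ _) hη1 hη.le zero_le_one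
        _ = 1 := one_mul 1
    have h8 : 0 < m * η := by positivity
    set s : ℝ := m * η with hs
    have h9 : m / 2 * η = s / 2 := by rw [hs]; ring
    rw [h9]
    nlinarith
  calc (N x y k l : ℝ) ≤ 2 * y / (Nat.totient k * (L * (1 + t))) := h4
    _ = 2 / (1 + t) * (y / (Nat.totient k * L)) := by field_simp
    _ < (2 - m / 2 * η) * (y / (Nat.totient k * L)) :=
        mul_lt_mul_of_pos_right h5 (by positivity)
    _ = _ := by ring

theorem cor : S_FIN → S_MER → S_COR := by
  intro h hmer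
  obtain ⟨C₀, hC0, hmer⟩ := hmer
  obtain ⟨c, hc, h1⟩ := cor_one h
  refine ⟨c / 2, by positivity, fun η hη hη1 => ?_, fun A hA => ?_⟩
  · obtain ⟨H₁, hH1, h2⟩ := h1 η hη hη1
    refine ⟨H₁, hH1, fun k l x y hk hyx hH hM => (h2 k l x y hk hyx hH hM).trans_le ?_⟩
    have hk0 : (0 : ℝ) < k := by exact_mod_cast hk
    have hφ : (0 : ℝ) < Nat.totient k := by exact_mod_cast Nat.totient_pos.2 hk
    have hH3 : 3 ≤ y / k := hH1.trans hH
    have hLpos : 0 < Real.log (y / k) := Real.log_pos (by linarith)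
    have hy : 0 < y := by
      have h3 : y = y / k * k := by rw [div_mul_cancel₀ _ hk0.ne']
      rw [h3]
      have : 0 < y / k := by linarith
      positivity
    rw [mul_div_assoc, mul_div_assoc]
    apply mul_le_mul_of_nonneg_right _ (by positivity)
    have : 0 < c * η := by positivity
    linarith
  · have hA0 : 0 < A := by linarith
    obtain ⟨H₁, hH1, h2⟩ := h1 (1 / (2 * A)) (by positivity) (by
      rw [div_le_one (by positivity)]
      linarith)
    refine ⟨max H₁ (Real.exp (2 * C₀)), hH1.trans (le_max_left _ _), ?_⟩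
    intro k l x y w hk hyx hw hdiv hy1 hy2
    have hk0 : (0 : ℝ) < k := by exact_mod_cast hk
    have hw1 : H₁ ≤ w := (le_max_left _ _).trans hw
    have hw2 : Real.exp (2 * C₀) ≤ w := (le_max_right _ _).trans hw
    have hw0 : 0 < w := by linarith
    have hwH : w ≤ y / k := by
      rw [le_div_iff₀ hk0]
      linarith
    have hHw : y / k ≤ w ^ A := by
      rw [div_le_iff₀ hk0]
      linarith
    have hH0 : 0 < y / k := hw0.trans_le hwH
    have hlog : Real.log (y / k) ≤ A * Real.log w := by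
      rw [← Real.log_rpow hw0]
      exact Real.log_le_log hH0 hHw
    have hlw : 2 * C₀ ≤ Real.log w := by
      rw [Real.le_log_iff_exp_le hw0]
      exact hw2
    have hM : Real.log w - C₀ ≤ Mk k (y / k) := by
      have h3 := (abs_le.1 (hmer w (by linarith))).1
      have h4 : ∑ p ∈ (Icc 1 ⌊w⌋₊).filter Nat.Prime, Real.log p / (p : ℝ) ≤ Mk k (y / k) := by
        rw [Mk]
        refine Finset.sum_le_sum_of_subset_of_nonneg ?_ fun p _ _ =>
          div_nonneg (Real.log_natCast_nonneg p) (Nat.cast_nonneg p)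
        intro p hp
        obtain ⟨h5, h6⟩ := Finset.mem_filter.1 hp
        have h7 : (p : ℝ) ≤ w :=
          (Nat.cast_le.2 (Finset.mem_Icc.1 h5).2).trans (Nat.floor_le hw0.le)
        exact Finset.mem_filter.2 ⟨Nat.mem_primeFactors.2 ⟨h6, hdiv p h6 h7, by omega⟩,
          h7.trans hwH⟩
      linarith
    have h3 := h2 k l x y hk hyx (hw1.trans hwH) (by
      rw [one_div, inv_mul_le_iff₀ (by positivity)]
      have h5 : Real.log w / 2 ≤ Mk k (y / k) := by linarith
      nlinarith)
    have e : c * (1 / (2 * A)) = c / 2 / A := by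
      field_simp
    rw [e] at h3
    exact h3

end Pool.Agent.P8H53.GM
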