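import Pool.Agent.P8H73.GM.Stm

/-! Package FIN of project GM. -/

set_option autoImplicit false

namespace Pool.Agent.P8H53.GM

open Finset Filter Topology Pool.Agent.H376R2.MR Pool.Agent.H376R2.TT Pool.Agent.P8H73.GM

theorem V_nonneg {K : Finset ℕ} (hK : ∀ p ∈ K, p.Prime) : 0 < V K := by
  refine Finset.prod_pos fun p hp => ?_
  have h1 : (2 : ℝ) ≤ p := by exact_mod_cast (hK p hp).two_le
  rw [sub_pos, div_lt_one (by linarith)]
  linarith

theorem V_le_one {K : Finset ℕ} (hK : ∀ p ∈ K, p.Prime) : V K ≤ 1 := by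
  refine Finset.prod_le_one (fun p hp => ?_) fun p hp => ?_
  · have h1 : (2 : ℝ) ≤ p := by exact_mod_cast (hK p hp).two_le
    rw [sub_nonneg, div_le_one (by linarith)]
    linarith
  · have h1 : (2 : ℝ) ≤ p := by exact_mod_cast (hK p hp).two_le
    have : 0 ≤ 1 / (p : ℝ) := by positivity
    linarith

theorem V_mul {K : Finset ℕ} (hK : ∀ p ∈ K, p.Prime) :
    V K * (1 + ∑ p ∈ K, 1 / (p : ℝ)) ≤ 1 := by
  induction K using Finset.induction_on with
  | empty => simp [V]
  | insert p K hp ih =>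
    have hK' : ∀ p ∈ K, p.Prime := fun q hq => hK q (Finset.mem_insert_of_mem hq)
    have h1 : (2 : ℝ) ≤ p := by exact_mod_cast (hK p (Finset.mem_insert_self _ _)).two_le
    have h2 : V (insert p K) = (1 - 1 / (p : ℝ)) * V K := Finset.prod_insert hp
    rw [h2, Finset.sum_insert hp]
    set x : ℝ := 1 / (p : ℝ) with hx
    have hx0 : 0 ≤ x := by positivity
    have hx1 : x ≤ 1 := by
      rw [hx, div_le_one (by linarith)]
      linarith
    have h3 := ih hK'
    have h4 := V_le_one hK'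
    have h5 := V_nonneg hK'
    calc (1 - x) * V K * (1 + (x + ∑ p ∈ K, 1 / (p : ℝ)))
        = (1 - x) * (V K * (1 + ∑ p ∈ K, 1 / (p : ℝ)) + V K * x) := by ring
      _ ≤ (1 - x) * (1 + 1 * x) := by
          apply mul_le_mul_of_nonneg_left _ (by linarith)
          apply add_le_add h3
          exact mul_le_mul_of_nonneg_right h4 hx0
      _ ≤ 1 := by nlinarith

theorem V_totient {k : ℕ} (hk : 1 ≤ k) : V k.primeFactors = (Nat.totient k : ℝ) / k := by
  have h1 := Nat.totient_eq_mul_prod_factors k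
  have h2 : (Nat.totient k : ℝ) = k * ∏ p ∈ k.primeFactors, (1 - (p : ℝ)⁻¹) := by
    have h3 : (((Nat.totient k : ℕ) : ℚ) : ℝ) =
        (((k : ℚ) * ∏ p ∈ k.primeFactors, (1 - (p : ℚ)⁻¹) : ℚ) : ℝ) := by rw [h1]
    push_cast at h3
    exact h3
  have hk0 : (k : ℝ) ≠ 0 := by exact_mod_cast (by omega : k ≠ 0)
  rw [h2, mul_div_cancel_left₀ _ hk0, V]
  exact Finset.prod_congr rfl fun p _ => by rw [one_div]

/-- the eventual inequalities -/
theorem large (C₀ C₁ : ℝ) : ∃ H₀ : ℝ, 3 ≤ H₀ ∧ ∀ H : ℝ, H₀ ≤ H → 16 ≤ Real.log H ∧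
    Real.log (Real.log H) + 1 + C₁ ≤ Real.log H / 4 ∧ C₀ ≤ 3 * Real.log H ∧
    4 ≤ √H / Real.log H := by
  have t := Real.tendsto_log_atTop
  have e1 := t.eventually (eventually_ge_atTop (16 : ℝ))
  have e2 : ∀ᶠ L : ℝ in atTop, Real.log L + 1 + C₁ ≤ L / 4 := by
    have h1 := Real.isLittleO_log_id_atTop.bound (show (0 : ℝ) < 1 / 8 by norm_num)
    filter_upwards [h1, eventually_ge_atTop (8 * (1 + C₁)), eventually_ge_atTop (0 : ℝ)]
      with L h2 h3 h4
    rw [id, Real.norm_eq_abs, Real.norm_eq_abs, abs_of_nonneg h4] at h2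
    have := le_abs_self (Real.log L)
    linarith
  have e3 := t.eventually (eventually_ge_atTop (C₀ / 3))
  have e4 : ∀ᶠ H : ℝ in atTop, Real.log H ≤ 1 / 4 * √H := by
    have h1 := (isLittleO_log_rpow_atTop (show (0 : ℝ) < 1 / 2 by norm_num)).bound
      (show (0 : ℝ) < 1 / 4 by norm_num)
    filter_upwards [h1, eventually_ge_atTop (0 : ℝ)] with H h2 h3
    rw [Real.norm_eq_abs, Real.norm_eq_abs, ← Real.sqrt_eq_rpow, abs_of_nonneg (Real.sqrt_nonneg _)]
      at h2
    exact (le_abs_self _).trans h2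
  obtain ⟨H₀, h⟩ := eventually_atTop.1 (((e1.and (t.eventually e2)).and e3).and e4)
  refine ⟨max 3 H₀, le_max_left _ _, fun H hH => ?_⟩
  obtain ⟨⟨⟨d1, d2⟩, d3⟩, d4⟩ := h H ((le_max_right _ _).trans hH)
  refine ⟨d1, d2, by linarith, ?_⟩
  rw [le_div_iff₀ (by linarith)]
  linarith

theorem fin : S_ALL → S_SIE → S_RED → S_MER → S_FIN := by
  rintro ⟨c₀, C₁, hc0, hc8, hC1, hall⟩ hsie hred ⟨C₀, hC0, hmer⟩
  obtain ⟨H₀, hH3, hlarge⟩ := large C₀ C₁
  refine ⟨2 * c₀, 2 * C₁ + 6, H₀, by positivity, by positivity, hH3, ?_⟩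
  intro k l x y hk hyx hH
  have hk0 : (0 : ℝ) < k := by exact_mod_cast hk
  set H : ℝ := y / k with hHdef
  have hHpos : 0 < H := by linarith
  have hH3' : 3 ≤ H := hH3.trans hH
  have hy : 0 < y := by
    have : y = H * k := by rw [hHdef, div_mul_cancel₀ _ hk0.ne']
    rw [this]
    positivity
  obtain ⟨d1, d2, d3, d4⟩ := hlarge H hH
  set L : ℝ := Real.log H with hL
  have hLpos : 0 < L := by linarith
  have hlogL : 0 ≤ Real.log L := Real.log_nonneg (by linarith)
  set D : ℕ := ⌊√H / L⌋₊ with hD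
  have hD1 : (D : ℝ) ≤ √H / L := Nat.floor_le (by positivity)
  have hD2 : √H / L < D + 1 := Nat.lt_floor_add_one _
  have hD3 : (3 : ℝ) < D := by linarith
  have hDN : 2 ≤ D := by
    have : (2 : ℝ) ≤ D := by linarith
    exact_mod_cast this
  have hsq : √H * √H = H := Real.mul_self_sqrt hHpos.le
  have hsqpos : 0 < √H := Real.sqrt_pos.2 hHpos
  have hDlog : L / 2 - Real.log L - 1 ≤ Real.log D := by
    have h1 : √H / L / 2 ≤ D := by linarith
    have h2 : Real.log (√H / L / 2) ≤ Real.log D := Real.log_le_log (by positivity) h1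
    rw [Real.log_div (by positivity) (by norm_num), Real.log_div hsqpos.ne' hLpos.ne',
      Real.log_sqrt hHpos.le] at h2
    have h3 : Real.log 2 ≤ 1 := by
      have := Real.log_two_lt_d9
      linarith
    linarith
  have hDH : (D : ℝ) ≤ H := by
    have h1 : √H / L ≤ √H := div_le_self hsqpos.le (by linarith)
    have h2 : 1 ≤ √H := by
      rw [Real.one_le_sqrt]
      linarith
    nlinarith
  have hDsq : (D : ℝ) ^ 2 + D ≤ 2 * (H / L ^ 2) := by
    have h1 : (D : ℝ) ^ 2 ≤ (√H / L) ^ 2 := by gcongr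
    have h2 : (√H / L) ^ 2 = H / L ^ 2 := by rw [div_pow, sq, hsq]
    rw [h2] at h1
    nlinarith
  -- the prime factors
  set P := k.primeFactors with hP
  have hPp : ∀ p ∈ P, p.Prime := fun p hp => Nat.prime_of_mem_primeFactors hp
  set K := P.filter (fun p => p ≤ D) with hK
  set K₂ := P.filter (fun p : ℕ => D < p ∧ (p : ℝ) ≤ H) with hK₂
  have hKp : ∀ p ∈ K, p.Prime := fun p hp => hPp p (Finset.mem_filter.1 hp).1
  have hK2p : ∀ p ∈ K₂, p.Prime := fun p hp => hPp p (Finset.mem_filter.1 hp).1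
  have hMm0 : ∀ Q : Finset ℕ, 0 ≤ Mm Q := fun Q =>
    Finset.sum_nonneg fun p _ => div_nonneg (Real.log_natCast_nonneg p) (Nat.cast_nonneg p)
  -- (1)
  set g := G K D / V K with hg
  have hg1 : Real.log D + c₀ * Mm K - C₁ ≤ g :=
    hall K D (fun p hp => ⟨hKp p hp, (Finset.mem_filter.1 hp).2⟩) hDN
  have hcM : 0 ≤ c₀ * Mm K := mul_nonneg hc0.le (hMm0 K)
  have hg2 : L / 4 ≤ g := by linarith
  have hgpos : 0 < g := by linarith
  have hVK := V_nonneg hKp
  have hGpos : G K D = V K * g := by rw [hg, mul_div_cancel₀ _ hVK.ne']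
  -- (2)
  have hMk : Mk k H = Mm K + Mm K₂ := by
    rw [Mk, Mm, Mm, ← Finset.sum_union]
    · apply Finset.sum_congr _ fun _ _ => rfl
      ext p
      simp only [hK, hK₂, Finset.mem_filter, Finset.mem_union, ← hP]
      constructor
      · rintro ⟨h1, h2⟩
        rcases le_or_gt p D with h3 | h3
        · exact Or.inl ⟨h1, h3⟩
        · exact Or.inr ⟨h1, h3, h2⟩
      · rintro (⟨h1, h2⟩ | ⟨h1, h2, h3⟩)
        · refine ⟨h1, le_trans ?_ hDH⟩
          exact_mod_cast h2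
        · exact ⟨h1, h3⟩
    · rw [Finset.disjoint_left]
      intro p h1 h2
      have h3 := (Finset.mem_filter.1 h1).2
      have h4 := (Finset.mem_filter.1 h2).2.1
      omega
  have hVP : V P = (Nat.totient k : ℝ) / k := V_totient hk
  have hφ : (0 : ℝ) < Nat.totient k := by exact_mod_cast Nat.totient_pos.2 hk
  have hsumK2 : Mm K₂ / L ≤ ∑ p ∈ K₂, 1 / (p : ℝ) := by
    rw [Mm, Finset.sum_div]
    refine Finset.sum_le_sum fun p hp => ?_
    have h1 := (Finset.mem_filter.1 hp).2.2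
    have h2 : (0 : ℝ) < p := by exact_mod_cast (hK2p p hp).pos
    rw [div_div, div_le_div_iff₀ (by positivity) h2]
    have h3 : Real.log p ≤ L := Real.log_le_log h2 h1
    nlinarith
  have hVle : V P * (1 + Mm K₂ / L) ≤ V K := by
    have h1 : V P = V K * V (P.filter fun p => ¬ p ≤ D) := by
      rw [V, V, V, hK, Finset.prod_filter_mul_prod_filter_not]
    have h2 : V (P.filter fun p => ¬ p ≤ D) ≤ V K₂ := by
      have hsub : K₂ ⊆ P.filter fun p => ¬ p ≤ D := by
        intro p hp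
        have h3 := Finset.mem_filter.1 hp
        exact Finset.mem_filter.2 ⟨h3.1, by have := h3.2.1; omega⟩
      have hp1 : ∀ p ∈ (P.filter fun p => ¬ p ≤ D) \ K₂, p.Prime := fun p hp =>
        hPp p (Finset.mem_filter.1 (Finset.mem_sdiff.1 hp).1).1
      rw [V, ← Finset.prod_sdiff hsub]
      change V ((P.filter fun p => ¬ p ≤ D) \ K₂) * V K₂ ≤ V K₂
      exact mul_le_of_le_one_left (V_nonneg hK2p).le (V_le_one hp1)
    have h3 := V_mul hK2p
    have h4 : 0 ≤ Mm K₂ / L := div_nonneg (hMm0 _) hLpos.le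
    rw [h1]
    calc V K * V (P.filter fun p => ¬ p ≤ D) * (1 + Mm K₂ / L)
        ≤ V K * V K₂ * (1 + ∑ p ∈ K₂, 1 / (p : ℝ)) := by
          have := (V_nonneg hK2p).le
          gcongr
      _ = V K * (V K₂ * (1 + ∑ p ∈ K₂, 1 / (p : ℝ))) := by ring
      _ ≤ V K * 1 := mul_le_mul_of_nonneg_left h3 hVK.le
      _ = V K := mul_one _
  -- (3)
  set A : ℝ := L / 2 - Real.log L - 1 - C₁ + c₀ * Mk k H with hA
  have hMk0 : 0 ≤ Mk k H := by rw [hMk]; exact add_nonneg (hMm0 _) (hMm0 _)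
  have hcMk : 0 ≤ c₀ * Mk k H := mul_nonneg hc0.le hMk0
  have hA4 : 4 ≤ A := by linarith
  have hMkle : Mk k H ≤ L + C₀ := by
    have h1 := (abs_le.1 (hmer H (by linarith))).2
    have h2 : Mk k H ≤ ∑ p ∈ (Icc 1 ⌊H⌋₊).filter Nat.Prime, Real.log p / (p : ℝ) := by
      rw [Mk]
      refine Finset.sum_le_sum_of_subset_of_nonneg ?_ fun p _ _ =>
        div_nonneg (Real.log_natCast_nonneg p) (Nat.cast_nonneg p)
      intro p hp
      obtain ⟨h3, h4⟩ := Finset.mem_filter.1 hp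
      have h5 := Nat.prime_of_mem_primeFactors h3
      exact Finset.mem_filter.2 ⟨Finset.mem_Icc.2 ⟨h5.one_le, Nat.le_floor h4⟩, h5⟩
    linarith
  have hAL : A ≤ L := by
    have h1 : c₀ * Mk k H ≤ 1 / 8 * (L + C₀) := by
      calc c₀ * Mk k H ≤ 1 / 8 * Mk k H := mul_le_mul_of_nonneg_right hc8 hMk0
        _ ≤ 1 / 8 * (L + C₀) := by linarith
    linarith
  have hAle : A ≤ g * (1 + Mm K₂ / L) := by
    have h1 : L / 4 * (Mm K₂ / L) ≤ g * (Mm K₂ / L) :=
      mul_le_mul_of_nonneg_right hg2 (div_nonneg (hMm0 _) hLpos.le)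
    have h2 : L / 4 * (Mm K₂ / L) = Mm K₂ / 4 := by field_simp
    have h3 : c₀ * Mm K₂ ≤ 1 / 8 * Mm K₂ := mul_le_mul_of_nonneg_right hc8 (hMm0 _)
    have h4 := hMm0 K₂
    rw [hA, hMk]
    nlinarith
  have hAG : (Nat.totient k : ℝ) / k * A ≤ selwq_G k D := by
    rw [hred k D hk, ← hP, ← hK, hGpos, ← hVP]
    calc V P * A ≤ V P * (g * (1 + Mm K₂ / L)) :=
          mul_le_mul_of_nonneg_left hAle (V_nonneg hPp).le
      _ = (V P * (1 + Mm K₂ / L)) * g := by ring
      _ ≤ V K * g := mul_le_mul_of_nonneg_right hVle hgpos.le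
  have hApos : 0 < A := by linarith
  have hk1 : (1 : ℝ) ≤ k / Nat.totient k := by
    rw [one_le_div hφ]
    exact_mod_cast Nat.totient_le k
  -- (4)
  have h1 := hsie k D l x y hk (by omega) hy hyx
  have h2 : H / selwq_G k D ≤ H * (k / Nat.totient k) / A := by
    have h3 : 0 < (Nat.totient k : ℝ) / k * A := by positivity
    calc H / selwq_G k D ≤ H / ((Nat.totient k : ℝ) / k * A) :=
          div_le_div_of_nonneg_left hHpos.le h3 hAG
      _ = _ := by field_simp
  have h5 : (N x y k l : ℝ) ≤ H * (k / Nat.totient k) * (1 / A + 2 / L ^ 2) := by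
    have h6 : 2 * (H / L ^ 2) ≤ H * (k / Nat.totient k) * (2 / L ^ 2) := by
      calc 2 * (H / L ^ 2) = H * 1 * (2 / L ^ 2) := by ring
        _ ≤ H * (k / Nat.totient k) * (2 / L ^ 2) := by gcongr
    calc (N x y k l : ℝ) ≤ H / selwq_G k D + ((D : ℝ) ^ 2 + D) := by
          rw [← add_assoc]; exact h1
      _ ≤ H * (k / Nat.totient k) / A + H * (k / Nat.totient k) * (2 / L ^ 2) :=
          add_le_add h2 (hDsq.trans h6)
      _ = _ := by ring
  have h7 : 1 / A + 2 / L ^ 2 ≤ 1 / (A - 2) := by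
    have h8 : 0 < A - 2 := by linarith
    have h9 : 2 / L ^ 2 ≤ 2 / (A * (A - 2)) := by
      apply div_le_div_of_nonneg_left (by norm_num) (by positivity)
      nlinarith
    have h10 : 1 / (A - 2) - 1 / A = 2 / (A * (A - 2)) := by
      field_simp
      ring
    linarith
  have hB : L + 2 * c₀ * Mk k H - 2 * Real.log L - (2 * C₁ + 6) = 2 * (A - 2) := by
    rw [hA]; ring
  rw [hB]
  refine ⟨by linarith, ?_⟩
  have h8 : 0 < A - 2 := by linarith
  calc (N x y k l : ℝ) ≤ H * (k / Nat.totient k) * (1 / (A - 2)) :=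
        h5.trans (mul_le_mul_of_nonneg_left h7 (by positivity))
    _ = 2 * y / (Nat.totient k * (2 * (A - 2))) := by
        rw [hHdef]
        field_simp

end Pool.Agent.P8H53.GM
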